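import Pool.Agent.Helper92.BO.GoalsG

/-!
# BO-CHN: the chain rule along the cut
-/

namespace Pool.Agent.Helper31.BO

open Pool.Agent.Helper92.BO MeasureTheory Filter Topology Function

namespace Chn

lemma in01_cut (G : SimpleGraph ℕ) {L : List ℕ} (v : ℕ) {b : ℕ → ℝ} {c : ℝ} (hb : In01 L b)
    (h0 : 0 ≤ c) : In01 L (cut G v c b) := by
  intro u hu
  obtain ⟨h1, h2⟩ := hb u hu
  unfold cut
  split_ifs
  · exact ⟨le_min h1 h0, (min_le_left _ _).trans h2⟩
  · exact ⟨h1, h2⟩

lemma in01_erase {L : List ℕ} {b : ℕ → ℝ} (u : ℕ) (hb : In01 L b) : In01 (L.erase u) b :=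
  fun w hw => hb w (List.mem_of_mem_erase hw)

lemma cut_sub (G : SimpleGraph ℕ) (u : ℕ) (c c' : ℝ) (b b' : ℕ → ℝ) (w : ℕ) (δ : ℝ)
    (h1 : |b w - b' w| ≤ δ) (h2 : |c - c'| ≤ δ) :
    |cut G u c b w - cut G u c' b' w| ≤ δ := by
  unfold cut
  split_ifs
  · exact (abs_min_sub_min_le_max _ _ _ _).trans (max_le h1 h2)
  · exact h1

lemma sum_le_length (L : List ℕ) (f : ℕ → ℝ) (δ : ℝ) (h : ∀ u ∈ L, f u ≤ δ) :
    (L.map f).sum ≤ L.length * δ := by
  induction L with
  | nil => simp
  | cons a L ih =>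
    have h1 := h a (by simp)
    have h2 := ih fun u hu => h u (by simp [hu])
    simp only [List.map_cons, List.sum_cons, List.length_cons]
    push_cast
    linarith

lemma lipR (hlip : LipStmt) (hcas : CasStmt) (G : SimpleGraph ℕ) {l : ℝ} (hl0 : 0 < l)
    (hl1 : l ≤ 1) (L : List ℕ) (b b' : ℕ → ℝ) (hb : In01 L b) (hb' : In01 L b') :
    |ZR G l L b - ZR G l L b'| ≤ (L.map fun u => |b u - b' u|).sum := by
  have h1 : ‖(l : ℂ)‖ ≤ 1 := by
    rw [Complex.norm_real, Real.norm_eq_abs, abs_of_pos hl0]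
    exact hl1
  have h := (hlip G (l : ℂ) 1 le_rfl h1 L b b' hb hb').2
  rw [hcas, hcas, ← Complex.ofReal_sub, Complex.norm_real, Real.norm_eq_abs, one_pow, one_mul] at h
  exact h

lemma abs_psiR {l : ℝ} (hl0 : 0 < l) (hl1 : l ≤ 1) (x : ℝ) : |psiR l x| ≤ 1 := by
  unfold psiR
  split_ifs
  · simp
  · rw [abs_of_pos hl0]
    exact hl1

lemma meas_psiR (l : ℝ) : Measurable (psiR l) := by
  unfold psiR
  exact Measurable.ite measurableSet_Iic measurable_const measurable_const

lemma psiR_near (l : ℝ) {τ r δ : ℝ} (h : |r - τ| ≤ δ) (h2 : δ < |τ - 1 / 2|) :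
    psiR l r = psiR l τ := by
  unfold psiR
  obtain ⟨h3, h4⟩ := abs_le.1 h
  rcases lt_or_ge τ (1 / 2) with h5 | h5
  · rw [abs_of_neg (by linarith)] at h2
    rw [if_pos (by linarith), if_pos (by linarith)]
  · rw [abs_of_nonneg (by linarith)] at h2
    rcases eq_or_lt_of_le h5 with h6 | h6
    · exfalso
      rw [← h6] at h2
      have := abs_nonneg (r - τ)
      linarith
    · rw [if_neg (by linarith), if_neg (by linarith)]

lemma head (hprm : PrmStmt) (hloc : LocStmt) (G : SimpleGraph ℕ) {l : ℝ} {L : List ℕ}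
    (hnd : L.Nodup) {u : ℕ} (hu : u ∈ L) {b : ℕ → ℝ} (hb : In01 L b) {t : ℝ} (h0 : 0 ≤ t)
    (h1 : t ≤ 1) :
    ZR G l L (update b u t) =
      ∫ r in (0 : ℝ)..t, psiR l r * ZR G l (L.erase u) (cut G u (1 - r) b) := by
  have hb' : In01 L (update b u t) := by
    intro w hw
    by_cases h : w = u
    · subst h
      rw [update_self]
      exact ⟨h0, h1⟩
    · rw [update_of_ne h]
      exact hb w hw
  rw [(hprm G 0 l L (u :: L.erase u) (update b u t) (List.perm_cons_erase hu) hb').2]
  show (∫ x in (0 : ℝ)..(update b u t u), psiR l x *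
    ZR G l (L.erase u) (cut G u (1 - x) (update b u t))) = _
  rw [update_self]
  refine intervalIntegral.integral_congr fun r _ => ?_
  show psiR l r * _ = psiR l r * _
  congr 1
  refine (hloc G (fun _ => 0) 0 l (L.erase u) _ _ ?_).2.1
  intro w hw
  have hwu : w ≠ u := fun h => by
    subst h
    exact (List.Nodup.not_mem_erase hnd) hw
  unfold cut
  rw [update_of_ne hwu]

lemma step (hprm : PrmStmt) (hloc : LocStmt) (hcnt : CntStmt) (G : SimpleGraph ℕ) {l : ℝ}
    {L : List ℕ} (hnd : L.Nodup) {u : ℕ} (hu : u ∈ L) {b : ℕ → ℝ} (hb : In01 L b) {t τ : ℝ}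
    (h0 : 0 ≤ t) (h1 : t ≤ 1) (h2 : 0 ≤ τ) (h3 : τ ≤ 1) :
    IntervalIntegrable (fun r => psiR l r * ZR G l (L.erase u) (cut G u (1 - r) b)) volume τ t ∧
    ZR G l L (update b u t) - ZR G l L (update b u τ) =
      ∫ r in τ..t, psiR l r * ZR G l (L.erase u) (cut G u (1 - r) b) := by
  have hi := (hcnt G 0 l (L.erase u) u b (in01_erase u hb)).2.2.2
  have hi' : ∀ x y : ℝ, 0 ≤ x → x ≤ 1 → 0 ≤ y → y ≤ 1 →
      IntervalIntegrable (fun r => psiR l r * ZR G l (L.erase u) (cut G u (1 - r) b)) volume x y := by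
    intro x y hx0 hx1 hy0 hy1
    refine hi.mono_set ?_
    rw [Set.uIcc_of_le (zero_le_one' ℝ)]
    exact Set.uIcc_subset_Icc ⟨hx0, hx1⟩ ⟨hy0, hy1⟩
  refine ⟨hi' τ t h2 h3 h0 h1, ?_⟩
  rw [head hprm hloc G hnd hu hb h0 h1, head hprm hloc G hnd hu hb h2 h3,
    intervalIntegral.integral_interval_sub_left (hi' 0 t le_rfl zero_le_one h0 h1)
      (hi' 0 τ le_rfl zero_le_one h2 h3)]

lemma est (hlip : LipStmt) (hcas : CasStmt) (hprm : PrmStmt) (hloc : LocStmt) (hcnt : CntStmt)
    (G : SimpleGraph ℕ) {l : ℝ} (hl0 : 0 < l) (hl1 : l ≤ 1)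
    {L : List ℕ} (hnd : L.Nodup) {u : ℕ} (hu : u ∈ L) {b c : ℕ → ℝ} (hb : In01 L b)
    (hc : In01 L c) {t τ : ℝ}
    (h0 : 0 ≤ t) (h1 : t ≤ 1) (h2 : 0 ≤ τ) (h3 : τ ≤ 1) (h4 : |t - τ| < |τ - 1 / 2|)
    (hbc : ∀ w ∈ L, |b w - c w| ≤ |t - τ|) :
    |ZR G l L (update b u t) - ZR G l L (update b u τ) -
      (t - τ) * (psiR l τ * ZR G l (L.erase u) (cut G u (1 - τ) c))| ≤
      L.length * |t - τ| ^ 2 := by
  obtain ⟨hi, hs⟩ := step hprm hloc hcnt G (l := l) hnd hu hb h0 h1 h2 h3
  rw [hs]
  have hconst : (t - τ) * (psiR l τ * ZR G l (L.erase u) (cut G u (1 - τ) c)) =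
      ∫ _ in τ..t, psiR l τ * ZR G l (L.erase u) (cut G u (1 - τ) c) := by
    rw [intervalIntegral.integral_const, smul_eq_mul]
  rw [hconst, ← intervalIntegral.integral_sub hi intervalIntegrable_const]
  have hb1 : ∀ r ∈ Set.uIoc τ t, ‖psiR l r * ZR G l (L.erase u) (cut G u (1 - r) b) -
      psiR l τ * ZR G l (L.erase u) (cut G u (1 - τ) c)‖ ≤ L.length * |t - τ| := by
    intro r hr
    have hr2 : |r - τ| ≤ |t - τ| := by
      rcases le_total τ t with h | h
      · rw [Set.uIoc_of_le h] at hr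
        rw [abs_of_nonneg (by linarith [hr.1]), abs_of_nonneg (by linarith)]
        linarith [hr.2]
      · rw [Set.uIoc_of_ge h] at hr
        rw [abs_of_nonpos (by linarith [hr.2]), abs_of_nonpos (by linarith)]
        linarith [hr.1]
    have hr01 : 0 ≤ 1 - r := by
      rcases le_total τ t with h | h
      · rw [Set.uIoc_of_le h] at hr
        linarith [hr.2]
      · rw [Set.uIoc_of_ge h] at hr
        linarith [hr.2]
    rw [psiR_near l hr2 h4, ← mul_sub, norm_mul, Real.norm_eq_abs, Real.norm_eq_abs]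
    have hl2 := lipR hlip hcas G hl0 hl1 (L.erase u) (cut G u (1 - r) b) (cut G u (1 - τ) c)
      (in01_cut G u (in01_erase u hb) hr01)
      (in01_cut G u (in01_erase u hc) (by linarith))
    have hl3 : ((L.erase u).map fun w => |cut G u (1 - r) b w - cut G u (1 - τ) c w|).sum ≤
        (L.erase u).length * |t - τ| := by
      refine sum_le_length _ _ _ fun w hw => ?_
      refine cut_sub G u _ _ _ _ w _ (hbc w (List.mem_of_mem_erase hw)) ?_
      have : 1 - r - (1 - τ) = -(r - τ) := by ring
      rw [this, abs_neg]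
      exact hr2
    have hl4 : ((L.erase u).length : ℝ) ≤ L.length := by
      exact_mod_cast List.length_erase_le
    have h5 := abs_psiR hl0 hl1 τ
    calc |psiR l τ| * |ZR G l (L.erase u) (cut G u (1 - r) b) -
          ZR G l (L.erase u) (cut G u (1 - τ) c)| ≤ 1 * ((L.erase u).length * |t - τ|) := by
          refine mul_le_mul h5 (hl2.trans hl3) (abs_nonneg _) zero_le_one
      _ ≤ L.length * |t - τ| := by
          rw [one_mul]
          exact mul_le_mul_of_nonneg_right hl4 (abs_nonneg _)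
  have h6 := intervalIntegral.norm_integral_le_of_norm_le_const hb1
  rw [Real.norm_eq_abs] at h6
  calc _ ≤ L.length * |t - τ| * |t - τ| := h6
    _ = _ := by ring

/-- The coordinates in `K` are moved to `t`. -/
def mv (K : List ℕ) (c : ℕ → ℝ) (t : ℝ) : ℕ → ℝ := fun w => if w ∈ K then t else c w

lemma deriv_mv (hlip : LipStmt) (hcas : CasStmt) (hprm : PrmStmt) (hloc : LocStmt)
    (hcnt : CntStmt) (G : SimpleGraph ℕ) {l : ℝ} (hl0 : 0 < l) (hl1 : l ≤ 1)
    {L : List ℕ} (hnd : L.Nodup) {c : ℕ → ℝ} (hc : In01 L c) {τ : ℝ} (h2 : 0 < τ) (h3 : τ < 1)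
    (h4 : τ ≠ 1 / 2) : ∀ K : List ℕ, K.Nodup → (∀ w ∈ K, w ∈ L ∧ c w = τ) →
    HasDerivAt (fun t => ZR G l L (mv K c t)) ((K.map fun u => Zd G l L u c).sum) τ
  | [], _, _ => by
    have h : (fun t => ZR G l L (mv [] c t)) = fun _ => ZR G l L c := by
      funext t
      congr 1
    rw [h, List.map_nil, List.sum_nil]
    exact hasDerivAt_const _ _
  | u :: K, hK, hKL => by
    have ih := deriv_mv hlip hcas hprm hloc hcnt G hl0 hl1 hnd hc h2 h3 h4 K
      (List.nodup_cons.1 hK).2 fun w hw => hKL w (by simp [hw])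
    have huK : u ∉ K := (List.nodup_cons.1 hK).1
    obtain ⟨huL, hcu⟩ := hKL u (by simp)
    have e1 : ∀ t, mv (u :: K) c t = update (mv K c t) u t := by
      intro t
      funext w
      by_cases h : w = u
      · subst h
        simp [mv]
      · rw [update_of_ne h]
        simp [mv, h]
    have e2 : ∀ t, mv K c t = update (mv K c t) u τ := by
      intro t
      funext w
      by_cases h : w = u
      · subst h
        rw [update_self]
        simp [mv, huK, hcu]
      · rw [update_of_ne h]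
    have e3 : mv K c τ = c := by
      funext w
      unfold mv
      split_ifs with h
      · exact (hKL w (by simp [h])).2.symm
      · rfl
    have hd : HasDerivAt (fun t => ZR G l L (update (mv K c t) u t) -
        ZR G l L (update (mv K c t) u τ)) (Zd G l L u c) τ := by
      rw [hasDerivAt_iff_isLittleO]
      have hO : (fun t => ZR G l L (update (mv K c t) u t) - ZR G l L (update (mv K c t) u τ) -
          (ZR G l L (update (mv K c τ) u τ) - ZR G l L (update (mv K c τ) u τ)) -
          (t - τ) • Zd G l L u c) =O[𝓝 τ] fun t => ‖t - τ‖ ^ 2 := by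
        refine Asymptotics.IsBigO.of_bound (L.length : ℝ) ?_
        have hev1 : ∀ᶠ t in 𝓝 τ, 0 < t := lt_mem_nhds h2
        have hev2 : ∀ᶠ t in 𝓝 τ, t < 1 := gt_mem_nhds h3
        have hev3 : ∀ᶠ t in 𝓝 τ, |t - τ| < |τ - 1 / 2| := by
          have hcont : ContinuousAt (fun t : ℝ => |t - τ|) τ := by fun_prop
          have h5 : (fun t : ℝ => |t - τ|) τ < |τ - 1 / 2| := by
            simp only [sub_self, abs_zero]
            exact abs_pos.2 (sub_ne_zero.2 h4)
          exact hcont.eventually (gt_mem_nhds h5)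
        filter_upwards [hev1, hev2, hev3] with t ht1 ht2 ht3
        have hmv : In01 L (mv K c t) := by
          intro w hw
          unfold mv
          split_ifs
          · exact ⟨ht1.le, ht2.le⟩
          · exact hc w hw
        have h6 := est hlip hcas hprm hloc hcnt G hl0 hl1 hnd huL hmv hc ht1.le ht2.le h2.le h3.le
          ht3 (by
            intro w _
            unfold mv
            split_ifs with h
            · rw [(hKL w (by simp [h])).2]
            · simp)
        have e6 : ‖‖t - τ‖ ^ 2‖ = |t - τ| ^ 2 := by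
          rw [norm_pow, norm_norm, Real.norm_eq_abs]
        rw [e6, sub_self, sub_zero, smul_eq_mul, Real.norm_eq_abs]
        have e4 : Zd G l L u c = psiR l τ * ZR G l (L.erase u) (cut G u (1 - τ) c) := by
          unfold Zd
          rw [hcu]
        rw [e4]
        exact h6
      exact hO.trans_isLittleO (Asymptotics.isLittleO_pow_sub_sub τ one_lt_two)
    have e5 : (fun t => ZR G l L (mv (u :: K) c t)) = fun t =>
        (ZR G l L (update (mv K c t) u t) - ZR G l L (update (mv K c t) u τ)) +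
          ZR G l L (mv K c t) := by
      funext t
      rw [e1, ← e2]
      ring
    rw [e5, List.map_cons, List.sum_cons]
    exact hd.add ih

open Classical in
lemma sum_filter (L : List ℕ) (p : ℕ → Prop) (f : ℕ → ℝ) :
    (L.map fun u => if p u then f u else 0).sum =
      ((L.filter fun u => decide (p u)).map f).sum := by
  induction L with
  | nil => simp
  | cons a L ih =>
    rw [List.map_cons, List.sum_cons, ih]
    by_cases h : p a
    · rw [List.filter_cons_of_pos (by simpa using h), if_pos h, List.map_cons, List.sum_cons]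
    · rw [List.filter_cons_of_neg (by simpa using h), if_neg h, zero_add]

lemma deriv_cut (hlip : LipStmt) (hcas : CasStmt) (hprm : PrmStmt) (hloc : LocStmt)
    (hcnt : CntStmt) (G : SimpleGraph ℕ) {l : ℝ} (hl0 : 0 < l) (hl1 : l ≤ 1)
    {L : List ℕ} (hnd : L.Nodup) {b : ℕ → ℝ} (hb : In01 L b) (v : ℕ) {s : ℝ} (h2 : 0 < s)
    (h3 : s < 1) (h4 : s ≠ 1 / 2) (h5 : ∀ u ∈ L, s ≠ 1 - b u) :
    HasDerivAt (fun s => ZR G l L (cut G v (1 - s) b)) (-Gc G l L v b s) s := by
  classical
  set c := cut G v (1 - s) b with hcdef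
  set K := L.filter (fun u => decide (G.Adj v u ∧ 1 - s < b u)) with hK
  have hc : In01 L c := in01_cut G v hb (by linarith)
  have hKm : ∀ w, w ∈ K ↔ w ∈ L ∧ G.Adj v w ∧ 1 - s < b w := by
    intro w
    rw [hK, List.mem_filter]
    simp
  have hKc : ∀ w ∈ K, w ∈ L ∧ c w = 1 - s := by
    intro w hw
    obtain ⟨h6, h7, h8⟩ := (hKm w).1 hw
    refine ⟨h6, ?_⟩
    rw [hcdef]
    unfold cut
    rw [if_pos h7, min_eq_right h8.le]
  have hd := deriv_mv hlip hcas hprm hloc hcnt G hl0 hl1 hnd hc (τ := 1 - s) (by linarith)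
    (by linarith) (by intro h; exact h4 (by linarith)) K (hnd.filter _) hKc
  have hd2 := HasDerivAt.comp_const_sub 1 s hd
  have hG : Gc G l L v b s = (K.map fun u => Zd G l L u c).sum := by
    unfold Gc
    rw [hK, ← hcdef]
    refine Eq.trans ?_ ((sum_filter L (fun u => G.Adj v u ∧ 1 - s < b u)
      (fun u => Zd G l L u c)).trans ?_)
    · refine congrArg List.sum (List.map_congr_left fun u _ => ?_)
      by_cases h : G.Adj v u ∧ 1 - s < b u
      · rw [if_pos h, if_pos h]
      · rw [if_neg h, if_neg h]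
    · refine congrArg (fun M : List ℕ => (M.map fun u => Zd G l L u c).sum)
        (List.filter_congr fun u _ => ?_)
      exact decide_eq_decide.2 Iff.rfl
  rw [hG]
  refine hd2.congr_of_eventuallyEq ?_
  have hev : ∀ᶠ s' in 𝓝 s, ∀ u ∈ {u | u ∈ L}, (1 - s < b u → 1 - s' < b u) ∧
      (b u < 1 - s → b u < 1 - s') := by
    rw [eventually_all_finite (List.finite_toSet L)]
    intro u _
    have hcont : ContinuousAt (fun s' : ℝ => 1 - s') s := by fun_prop
    rcases lt_or_ge (1 - s) (b u) with h | h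
    · filter_upwards [hcont.eventually (gt_mem_nhds h)] with s' hs'
      exact ⟨fun _ => hs', fun h' => absurd h' (by linarith)⟩
    · rcases eq_or_lt_of_le h with h' | h'
      · filter_upwards with s'
        exact ⟨fun h'' => absurd h'' (by linarith), fun h'' => absurd h'' (by linarith)⟩
      · filter_upwards [hcont.eventually (lt_mem_nhds h')] with s' hs'
        exact ⟨fun h'' => absurd h'' (by linarith), fun _ => hs'⟩
  filter_upwards [hev] with s' hs'
  refine (hloc G (fun _ => 0) 0 l L _ _ ?_).2.1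
  intro u hu
  obtain ⟨h6, h7⟩ := hs' u hu
  unfold mv
  by_cases hadj : G.Adj v u
  · rcases lt_trichotomy (1 - s) (b u) with h | h | h
    · rw [if_pos ((hKm u).2 ⟨hu, hadj, h⟩)]
      unfold cut
      rw [if_pos hadj, min_eq_right (h6 h).le]
    · exact absurd (by linarith) (h5 u hu)
    · rw [if_neg (fun h' => by linarith [((hKm u).1 h').2.2]), hcdef]
      unfold cut
      rw [if_pos hadj, if_pos hadj, min_eq_left h.le, min_eq_left (h7 h).le]
  · rw [if_neg (fun h' => hadj ((hKm u).1 h').2.1), hcdef]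
    unfold cut
    rw [if_neg hadj, if_neg hadj]

lemma int_term (hlip : LipStmt) (hcas : CasStmt) (hpos : PosStmt) (G : SimpleGraph ℕ) {l : ℝ}
    (hl0 : 0 < l) (hl1 : l ≤ 1) {L : List ℕ} {b : ℕ → ℝ} (hb : In01 L b) (v u : ℕ) (hu : u ∈ L)
    (p : ℝ → Prop) (hp : MeasurableSet {s | p s}) [DecidablePred p] :
    IntervalIntegrable (fun s => if p s then Zd G l L u (cut G v (1 - s) b) else 0)
      volume 0 1 := by
  rw [intervalIntegrable_iff_integrableOn_Ioc_of_le zero_le_one]
  set g : ℝ → ℝ := fun s => Zd G l L u (cut G v (1 - s) b) with hg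
  have e : (fun s => if p s then g s else 0) = Set.indicator {s | p s} g := by
    funext s
    by_cases h : p s
    · rw [Set.indicator_of_mem (by exact h), if_pos h]
    · rw [Set.indicator_of_notMem (by exact h), if_neg h]
  rw [e]
  refine Integrable.indicator ?_ hp
  -- the bounds
  have hcu : ∀ s ∈ Set.Icc (0 : ℝ) 1, 0 ≤ cut G v (1 - s) b u ∧ cut G v (1 - s) b u ≤ 1 :=
    fun s hs => in01_cut G v hb (by linarith [hs.2]) u hu
  have hin : ∀ s ∈ Set.Icc (0 : ℝ) 1,
      In01 (L.erase u) (cut G u (1 - cut G v (1 - s) b u) (cut G v (1 - s) b)) := by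
    intro s hs
    refine in01_cut G u (in01_erase u (in01_cut G v hb (by linarith [hs.2]))) ?_
    linarith [(hcu s hs).2]
  have hcont : ContinuousOn (fun s => ZR G l (L.erase u)
      (cut G u (1 - cut G v (1 - s) b u) (cut G v (1 - s) b))) (Set.Icc 0 1) := by
    have hL : LipschitzOnWith ((L.erase u).length : NNReal) (fun s => ZR G l (L.erase u)
      (cut G u (1 - cut G v (1 - s) b u) (cut G v (1 - s) b))) (Set.Icc 0 1) := by
      refine LipschitzOnWith.of_dist_le_mul fun s hs s' hs' => ?_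
      rw [Real.dist_eq, Real.dist_eq]
      refine (lipR hlip hcas G hl0 hl1 (L.erase u) _ _ (hin s hs) (hin s' hs')).trans ?_
      have h1 : ∀ w, |cut G v (1 - s) b w - cut G v (1 - s') b w| ≤ |s - s'| := by
        intro w
        refine cut_sub G v _ _ _ _ w _ (by simp) ?_
        have : 1 - s - (1 - s') = -(s - s') := by ring
        rw [this, abs_neg]
      have h2 := sum_le_length (L.erase u) (fun w =>
        |cut G u (1 - cut G v (1 - s) b u) (cut G v (1 - s) b) w -
          cut G u (1 - cut G v (1 - s') b u) (cut G v (1 - s') b) w|) |s - s'| (by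
          intro w _
          refine cut_sub G u _ _ _ _ w _ (h1 w) ?_
          have : 1 - cut G v (1 - s) b u - (1 - cut G v (1 - s') b u) =
            -(cut G v (1 - s) b u - cut G v (1 - s') b u) := by ring
          rw [this, abs_neg]
          exact h1 u)
      simpa using h2
    exact hL.continuousOn
  have hmc : Measurable fun s : ℝ => cut G v (1 - s) b u := by
    unfold cut
    split_ifs
    · fun_prop
    · fun_prop
  have hm1 : AEStronglyMeasurable g (volume.restrict (Set.Ioc 0 1)) := by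
    have h1 : AEStronglyMeasurable (fun s : ℝ => psiR l (cut G v (1 - s) b u))
        (volume.restrict (Set.Ioc (0 : ℝ) 1)) :=
      ((meas_psiR l).comp hmc).aestronglyMeasurable
    have h2 : AEStronglyMeasurable (fun s => ZR G l (L.erase u)
        (cut G u (1 - cut G v (1 - s) b u) (cut G v (1 - s) b)))
        (volume.restrict (Set.Ioc (0 : ℝ) 1)) :=
      (hcont.mono Set.Ioc_subset_Icc_self).aestronglyMeasurable measurableSet_Ioc
    exact h1.mul h2
  refine Integrable.mono' (g := fun _ => (1 : ℝ)) (by simp) hm1 ?_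
  refine (ae_restrict_iff' measurableSet_Ioc).2 (Eventually.of_forall fun s hs => ?_)
  have hs' : s ∈ Set.Icc (0 : ℝ) 1 := Set.Ioc_subset_Icc_self hs
  obtain ⟨h1, h2⟩ := (hpos G l (L.erase u) _ hl0 hl1).1 (hin s hs')
  rw [hg]
  show ‖psiR l (cut G v (1 - s) b u) * _‖ ≤ 1
  rw [norm_mul, Real.norm_eq_abs, Real.norm_eq_abs, abs_of_nonneg h1]
  calc _ ≤ (1 : ℝ) * 1 := mul_le_mul (abs_psiR hl0 hl1 _) h2 h1 zero_le_one
    _ = 1 := one_mul 1

lemma int_sum (f : ℕ → ℝ → ℝ) (a b : ℝ) : ∀ L : List ℕ, (∀ u ∈ L,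
    IntervalIntegrable (f u) volume a b) →
    IntervalIntegrable (fun s => (L.map fun u => f u s).sum) volume a b
  | [], _ => by
    simp only [List.map_nil, List.sum_nil]
    exact intervalIntegrable_const
  | u :: L, h => by
    simp only [List.map_cons, List.sum_cons]
    exact (h u (by simp)).add (int_sum f a b L fun w hw => h w (by simp [hw]))

end Chn

open Chn in
theorem chn (hcnt : CntStmt) (hlip : LipStmt) (hcas : CasStmt) (hprm : PrmStmt)
    (hloc : LocStmt) (hpos : PosStmt) : ChnStmt := by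
  classical
  intro G l L v b hl0 hl1 hnd hb x' x hx0 hxx hx1
  have hb1 : In01 L b := fun u hu => ⟨(hb u hu).1.le, (hb u hu).2⟩
  have hint : IntervalIntegrable (Gc G l L v b) volume 0 1 := by
    have := int_sum (fun u s => if G.Adj v u ∧ 1 - s < b u then
      Zd G l L u (cut G v (1 - s) b) else 0) 0 1 L (fun u hu =>
        int_term hlip hcas hpos G hl0 hl1 hb1 v u hu (fun s => G.Adj v u ∧ 1 - s < b u) (by
          by_cases h : G.Adj v u
          · simp only [h, true_and]
            exact measurableSet_lt (by fun_prop) measurable_const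
          · simp only [h, false_and]
            exact MeasurableSet.empty))
    convert this using 2
    unfold Gc
    rfl
  have hsub : Set.Icc x' x ⊆ Set.Icc (0 : ℝ) 1 := Set.Icc_subset_Icc hx0 hx1
  have hint2 : IntervalIntegrable (fun s => -Gc G l L v b s) volume x' x := by
    refine (hint.mono_set ?_).neg
    rw [Set.uIcc_of_le zero_le_one, Set.uIcc_of_le hxx]
    exact hsub
  have hcont := (hcnt G 0 l L v b hb1).2.1.mono hsub
  have hS : (({1 / 2} : Set ℝ) ∪ ((fun u => 1 - b u) '' {u | u ∈ L})).Countable := by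
    refine Set.Countable.union (Set.countable_singleton _) ?_
    exact ((List.finite_toSet L).image _).countable
  have h := integral_eq_of_hasDerivAt_off_countable_of_le
    (fun s => ZR G l L (cut G v (1 - s) b)) (fun s => -Gc G l L v b s) hxx hS hcont
    (by
      intro s hs
      obtain ⟨⟨h1, h2⟩, h3⟩ := hs
      refine deriv_cut hlip hcas hprm hloc hcnt G hl0 hl1 hnd hb1 v (by linarith) (by linarith)
        ?_ ?_
      · intro h4
        exact h3 (Or.inl h4)
      · intro u hu h4
        exact h3 (Or.inr ⟨u, hu, h4.symm⟩)) hint2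
  rw [intervalIntegral.integral_neg] at h
  linarith

end Pool.Agent.Helper31.BO
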