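import Pool.Agent.Helper92.BO.GoalsB

/-! Packet BO-CSN of helper92: one step of the induction, comparison with the real integral. -/

set_option autoImplicit false

namespace Pool.Agent.Helper31.BO

open MeasureTheory Filter Topology Function Pool.Agent.Helper92.BO

theorem ii_ite (c : ℂ) (a b : ℝ) : IntervalIntegrable (fun x : ℝ => if x ≤ 1 / 2 then (1 : ℂ) else c)
    volume a b := by
  have hm : Measurable (fun x : ℝ => if x ≤ 1 / 2 then (1 : ℂ) else c) :=
    Measurable.ite measurableSet_Iic measurable_const measurable_const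
  have hb : ∀ x : ℝ, ‖(if x ≤ 1 / 2 then (1 : ℂ) else c)‖ ≤ max 1 ‖c‖ := by
    intro x
    split_ifs
    · simp
    · exact le_max_right _ _
  rw [intervalIntegrable_iff]
  exact Measure.integrableOn_of_bounded (M := max 1 ‖c‖) (by simp) hm.aestronglyMeasurable
    (Filter.Eventually.of_forall fun x => hb x)

theorem ii_psi (z : ℂ) {V : ℝ → ℂ} (hV : ContinuousOn V (Set.Icc 0 1)) {a b : ℝ} (ha : 0 ≤ a)
    (hab : a ≤ b) (hb : b ≤ 1) : IntervalIntegrable (fun x => psi z x * V x) volume a b := by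
  refine (ii_ite z a b).mul_continuousOn (hV.mono ?_)
  rw [Set.uIcc_of_le hab]
  exact Set.Icc_subset_Icc ha hb

theorem ii_rho {l : ℝ} {W : ℝ → ℝ} (hW : ContinuousOn W (Set.Icc 0 1)) {a b : ℝ} (ha : 0 ≤ a)
    (hab : a ≤ b) (hb : b ≤ 1) : IntervalIntegrable (rho l W) volume a b := by
  have h1 : IntervalIntegrable (fun x : ℝ => if x ≤ 1 / 2 then (1 : ℝ) else l) volume a b := by
    have hm : Measurable (fun x : ℝ => if x ≤ 1 / 2 then (1 : ℝ) else l) :=
      Measurable.ite measurableSet_Iic measurable_const measurable_const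
    have hb : ∀ x : ℝ, ‖(if x ≤ 1 / 2 then (1 : ℝ) else l)‖ ≤ max 1 ‖l‖ := by
      intro x
      split_ifs
      · simp
      · exact le_max_right _ _
    rw [intervalIntegrable_iff]
    exact Measure.integrableOn_of_bounded (M := max 1 ‖l‖) (by simp) hm.aestronglyMeasurable
      (Filter.Eventually.of_forall fun x => hb x)
  have h2 := h1.mul_continuousOn (hW.mono (by
    rw [Set.uIcc_of_le hab]
    exact Set.Icc_subset_Icc ha hb))
  exact h2

theorem rho_pos {d : ℕ} {l : ℝ} {W : ℝ → ℝ} (hl : 0 < l) (hW : Adm d W) {x : ℝ} (h0 : 0 ≤ x)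
    (h1 : x < 1) : 0 < rho l W x := by
  unfold rho psiR
  have := hW.pos x h0 h1
  split_ifs
  · linarith
  · positivity

theorem kap_le {d : ℕ} {l κ : ℝ} (l0 : 0 < l) (l1 : l ≤ 1)
    (hκ : κ ≤ l * (1 / 4) ^ d / (800 * (d + 1) ^ 2)) : κ * (d + 1) ^ 2 ≤ 1 / 800 := by
  have h1 : l * (1 / 4 : ℝ) ^ d ≤ 1 := by
    have : (1 / 4 : ℝ) ^ d ≤ 1 := pow_le_one₀ (by norm_num) (by norm_num)
    have h4 : (0 : ℝ) ≤ (1 / 4 : ℝ) ^ d := by positivity
    nlinarith
  have h2 : (0 : ℝ) < 800 * ((d : ℝ) + 1) ^ 2 := by positivity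
  rw [le_div_iff₀ h2] at hκ
  nlinarith

theorem csn : CsnStmt := by
  intro d l κ z W V J h
  have l0 := h.l0
  have l1 := h.l1
  have κ0 := h.κ0
  have hk := kap_le l0 l1 h.κ1
  have hd0 : (0 : ℝ) ≤ d := Nat.cast_nonneg d
  have hk1 : κ * (d + 1) ≤ 1 / 800 := by nlinarith [mul_nonneg κ0.le hd0]
  have hk2 : κ * d ≤ 1 / 800 := by nlinarith
  have hk3 : κ ≤ 1 / 800 := by nlinarith [mul_nonneg κ0.le hd0]
  have hW4 : 0 < W (1 / 4) := h.adm.pos _ (by norm_num) (by norm_num)
  have hV4 : V (1 / 4) ≠ 0 := h.ne _ (by norm_num) (by norm_num) (by norm_num)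
  have hW4c : (W (1 / 4) : ℂ) ≠ 0 := by exact_mod_cast hW4.ne'
  set r0 : ℂ := V (1 / 4) / W (1 / 4) with hr0
  have hr : r0 ≠ 0 := div_ne_zero hV4 hW4c
  have hrn : 0 < ‖r0‖ := norm_pos_iff.2 hr
  -- the ratio
  have key : ∀ x, 0 < x → x < 1 → x ≠ 1 / 2 → ∃ E : ℂ, V x = r0 * W x * Complex.exp E ∧
      ‖E‖ ≤ κ * d := by
    intro x hx0 hx1 hx2
    rcases lt_trichotomy x (1 / 4) with hx | hx | hx
    · obtain ⟨E, e1, e2⟩ := h.rel x (1 / 4) hx0 hx (by norm_num) hx2 (by norm_num)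
      have e3 := (h.mono x (1 / 4) hx0 hx (by norm_num) hx2 (by norm_num)).2
      refine ⟨-E, ?_, ?_⟩
      · have : Complex.exp E * Complex.exp (-E) = 1 := by
          rw [← Complex.exp_add, add_neg_cancel, Complex.exp_zero]
        rw [hr0]
        field_simp
        calc V x * (W (1 / 4) : ℂ) = (Complex.exp E * (V x * W (1 / 4))) * Complex.exp (-E) := by
              linear_combination (-(V x * W (1 / 4))) * this
          _ = V (1 / 4) * W x * Complex.exp (-E) := by rw [← e1]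
      · rw [norm_neg]
        exact e2.trans (mul_le_mul_of_nonneg_left e3 κ0.le)
    · refine ⟨0, ?_, ?_⟩
      · rw [hx, hr0, Complex.exp_zero]
        field_simp
      · rw [norm_zero]
        positivity
    · obtain ⟨E, e1, e2⟩ := h.rel (1 / 4) x (by norm_num) hx hx1 (by norm_num) hx2
      have e3 := (h.mono (1 / 4) x (by norm_num) hx hx1 (by norm_num) hx2).2
      refine ⟨E, ?_, e2.trans (mul_le_mul_of_nonneg_left e3 κ0.le)⟩
      rw [hr0]
      field_simp
      linear_combination e1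
  have hexp : ∀ E : ℂ, ‖E‖ ≤ κ * d → ‖Complex.exp E - 1‖ ≤ 2 * (κ * d) := by
    intro E hE
    have := Complex.norm_exp_sub_one_le (x := E) (by linarith)
    linarith
  have p1 : ∀ x, 0 < x → x < 1 → x ≠ 1 / 2 → ‖psi z x * V x - r0 * rho l W x‖ ≤
      2 * κ * (d + 1) * ‖r0‖ * rho l W x := by
    intro x hx0 hx1 hx2
    obtain ⟨E, e1, e2⟩ := key x hx0 hx1 hx2
    have hE := hexp E e2
    have hρ := rho_pos l0 h.adm hx0.le hx1
    have hρc : ((rho l W x : ℝ) : ℂ) = (psiR l x : ℂ) * W x := by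
      unfold rho; push_cast; ring
    obtain ⟨m, hm, hmz⟩ : ∃ m : ℂ, ‖m‖ ≤ κ / 8 ∧ psi z x = psiR l x * (1 + m) := by
      unfold psi psiR
      by_cases hx : x ≤ 1 / 2
      · refine ⟨0, by rw [norm_zero]; positivity, ?_⟩
        rw [if_pos hx, if_pos hx]
        simp
      · refine ⟨(z - l) / l, ?_, ?_⟩
        · rw [norm_div, Complex.norm_real, Real.norm_of_nonneg l0.le, div_le_iff₀ l0]
          refine h.hz.trans ?_
          have : l * l ≤ l * 1 := mul_le_mul_of_nonneg_left l1 l0.le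
          nlinarith
        · rw [if_neg hx, if_neg hx]
          have : (l : ℂ) ≠ 0 := by exact_mod_cast l0.ne'
          field_simp
          ring
    have e3 : psi z x * V x - r0 * rho l W x =
        r0 * (rho l W x : ℂ) * ((Complex.exp E - 1) * (1 + m) + m) := by
      rw [hmz, e1, hρc]
      ring
    rw [e3, norm_mul, norm_mul, Complex.norm_real, Real.norm_of_nonneg hρ.le]
    have h4 : ‖(Complex.exp E - 1) * (1 + m) + m‖ ≤ 2 * κ * (d + 1) := by
      calc ‖(Complex.exp E - 1) * (1 + m) + m‖ ≤ ‖(Complex.exp E - 1) * (1 + m)‖ + ‖m‖ :=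
            norm_add_le _ _
        _ ≤ 2 * (κ * d) * (1 + κ / 8) + κ / 8 := by
            rw [norm_mul]
            have h5 : ‖(1 : ℂ) + m‖ ≤ 1 + κ / 8 := by
              refine (norm_add_le _ _).trans ?_
              rw [norm_one]
              linarith
            have h6 : ‖Complex.exp E - 1‖ * ‖(1 : ℂ) + m‖ ≤ 2 * (κ * d) * (1 + κ / 8) :=
              mul_le_mul hE h5 (norm_nonneg _) (by positivity)
            linarith
        _ ≤ 2 * κ * (d + 1) := by nlinarith [mul_nonneg κ0.le hd0]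
    calc ‖r0‖ * rho l W x * ‖(Complex.exp E - 1) * (1 + m) + m‖ ≤
          ‖r0‖ * rho l W x * (2 * κ * (d + 1)) :=
          mul_le_mul_of_nonneg_left h4 (by positivity)
      _ = 2 * κ * (d + 1) * ‖r0‖ * rho l W x := by ring
  refine ⟨p1, ?_⟩
  intro y hy0 hy1
  have i1 := ii_rho (l := l) h.adm.cont le_rfl hy0.le hy1
  have i2 := ii_psi z h.cont le_rfl hy0.le hy1
  have hZ : 0 < Zf l W y := by
    unfold Zf
    exact intervalIntegral.intervalIntegral_pos_of_pos_on i1
      (fun x hx => rho_pos l0 h.adm hx.1.le (hx.2.trans_le hy1)) hy0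
  have hN : ‖ZCf z V y - r0 * Zf l W y‖ ≤ 2 * κ * (d + 1) * ‖r0‖ * Zf l W y := by
    have i3 : IntervalIntegrable (fun x => r0 * ((rho l W x : ℝ) : ℂ)) volume 0 y :=
      IntervalIntegrable.const_mul (f := fun x => ((rho l W x : ℝ) : ℂ)) ⟨i1.1.ofReal, i1.2.ofReal⟩ r0
    have e1 : ZCf z V y - r0 * Zf l W y =
        ∫ x in (0 : ℝ)..y, (psi z x * V x - r0 * ((rho l W x : ℝ) : ℂ)) := by
      rw [intervalIntegral.integral_sub i2 i3, intervalIntegral.integral_const_mul,
        intervalIntegral.integral_ofReal]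
      rfl
    have e2 : 2 * κ * (d + 1) * ‖r0‖ * Zf l W y =
        ∫ x in (0 : ℝ)..y, 2 * κ * (d + 1) * ‖r0‖ * rho l W x := by
      rw [intervalIntegral.integral_const_mul]
      rfl
    rw [e1, e2]
    refine intervalIntegral.norm_integral_le_of_norm_le hy0.le ?_ (i1.const_mul _)
    have ha : ∀ᵐ x : ℝ, x ≠ 1 / 2 := by
      simp [ae_iff, measure_singleton]
    have hb : ∀ᵐ x : ℝ, x ≠ 1 := by
      simp [ae_iff, measure_singleton]
    filter_upwards [ha, hb] with x hx1 hx2 hx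
    exact p1 x hx.1 (lt_of_le_of_ne (hx.2.trans hy1) hx2) hx1
  refine ⟨hZ, ?_, hN⟩
  intro h0
  rw [h0, zero_sub, norm_neg, norm_mul, Complex.norm_real, Real.norm_of_nonneg hZ.le] at hN
  have : 0 < ‖r0‖ * Zf l W y := by positivity
  nlinarith

end Pool.Agent.Helper31.BO
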