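import Pool.Agent.Helper92.BO.GoalsA

/-! Packet BO-PBD of helper92: bounds for the increments of the potential. -/

set_option autoImplicit false

namespace Pool.Agent.Helper31.BO

open MeasureTheory Filter Topology Function Pool.Agent.Helper92.BO

theorem good_up {L : List ℕ} {v : ℕ} {b : ℕ → ℝ} (hv : v ∉ L) (hb : Good L b) {y : ℝ} (h0 : 0 < y)
    (h1 : y ≤ 1) (h2 : y ≠ 1 / 2) : Good (v :: L) (update b v y) := by
  intro u hu
  rcases List.mem_cons.1 hu with rfl | hu
  · rw [update_self]
    exact ⟨h0, h1, h2⟩
  · have : u ≠ v := fun h => hv (h ▸ hu)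
    rw [update_of_ne this]
    exact hb u hu

theorem pbd (hM : MnjStmt) (hP : PtwStmt) (hF : FlpStmt) (hS : SrdStmt) (hA : AdmStmt) :
    PbdStmt := by
  intro G s l Δ hs hd h0 h1 L v b hL hv hb y' y hy0 hyy hy1 hn' hn
  have g' : Good (v :: L) (update b v y') := good_up hv hb hy0 (by linarith) hn'
  have g : Good (v :: L) (update b v y) := good_up hv hb (by linarith) hy1 hn
  have hnd : (v :: L).Nodup := List.nodup_cons.2 ⟨hv, hL⟩
  have hadm := hA G Δ l L v b hd h0 h1 hL hv (fun u hu => ⟨(hb u hu).1, (hb u hu).2.1⟩)
  have hle := (hS Δ l _ h0 h1 hadm y' y hy0 hyy hy1 hn' hn).1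
  have hpt : s v * (JR G s l (v :: L) (update b v y) - JR G s l (v :: L) (update b v y')) ≤
      Mf l (fun x => ZR G l L (cut G v (1 - x) b)) y' y := by
    rcases hs.pm v with hv1 | hv1
    · rw [hv1, one_mul]
      exact hP G s l hs h0 h1 L v b hv hv1 hb y' y hy0 hyy hy1 hn' hn
    · have hs' := (hF G s l L b).2 hs
      have h3 := hP G (fun v => - s v) l hs' h0 h1 L v b hv (by simp [hv1]) hb y' y hy0 hyy hy1
        hn' hn
      have e : ∀ c, JR G (fun v => - s v) l (v :: L) c = - JR G s l (v :: L) c := by
        intro c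
        unfold JR
        rw [(hF G s l (v :: L) c).1, neg_div]
      rw [e, e] at h3
      rw [hv1]
      linarith
  refine ⟨?_, hpt.trans hle, hpt⟩
  rcases hs.pm v with hv1 | hv1
  · have h3 := hM G s l Δ hs hd h0 h1 (v :: L) (update b v y') (update b v y) hnd g' g (by
      intro u hu
      by_cases huv : u = v
      · subst huv
        rw [update_self, update_self, hv1]
        linarith
      · rw [update_of_ne huv, update_of_ne huv])
    rw [hv1]
    linarith
  · have h3 := hM G s l Δ hs hd h0 h1 (v :: L) (update b v y) (update b v y') hnd g g' (by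
      intro u hu
      by_cases huv : u = v
      · subst huv
        rw [update_self, update_self, hv1]
        linarith
      · rw [update_of_ne huv, update_of_ne huv])
    rw [hv1]
    linarith

end Pool.Agent.Helper31.BO
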