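import Pool.Agent.Helper92.BO.GoalsF

/-! Packet BO-PTG of helper92: the graph is computed in polynomial time. -/

set_option autoImplicit false

namespace Pool.Agent.Helper31.BO

open Pool.Agent.Helper81.CC Pool.Agent.Bin Pool.Agent.Helper92.VP Pool.Agent.Helper92.FR
  Pool.Agent.Helper92.BO

variable {α : Type} [ToData α]

@[fun_prop] theorem pt_negB {x : α → RQ} (hx : PolyTime x) : PolyTime (fun a => negB (x a)) := by
  unfold negB
  fun_prop

@[fun_prop] theorem pt_negs {n : α → ℕ} {r : α → List RQ × RQ} (hn : PolyTime n)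
    (hr : PolyTime r) : PolyTime (fun a => negs (n a) (r a)) := by
  unfold negs
  fun_prop

theorem pt_edgesS : PolyTime edgesS := by
  unfold edgesS
  fun_prop

@[fun_prop] theorem pt_edgesS' {S : α → Sys} (hS : PolyTime S) :
    PolyTime (fun a => edgesS (S a)) := pt_edgesS.comp hS

@[fun_prop] theorem pt_adjB {E : α → List (ℕ × ℕ)} {u w : α → ℕ} (hE : PolyTime E)
    (hu : PolyTime u) (hw : PolyTime w) : PolyTime (fun a => adjB (E a) (u a) (w a)) := by
  unfold adjB
  fun_prop

@[fun_prop] theorem pt_cnL {E : α → List (ℕ × ℕ)} {n : α → ℕ} {I : α → List ℕ}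
    (hE : PolyTime E) (hn : PolyTime n) (hI : PolyTime I) :
    PolyTime (fun a => cnL (E a) (n a) (I a)) := by
  unfold cnL
  fun_prop

@[fun_prop] theorem pt_relB {E : α → List (ℕ × ℕ)} {n u w : α → ℕ} (hE : PolyTime E)
    (hn : PolyTime n) (hu : PolyTime u) (hw : PolyTime w) :
    PolyTime (fun a => relB (E a) (n a) (u a) (w a)) := by
  unfold relB
  fun_prop

@[fun_prop] theorem pt_nbR {E : α → List (ℕ × ℕ)} {n u : α → ℕ} (hE : PolyTime E)
    (hn : PolyTime n) (hu : PolyTime u) :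
    PolyTime (fun a => nbR (E a) (n a) (u a)) := by
  unfold nbR
  fun_prop

@[fun_prop] theorem pt_hasE {E : α → List (ℕ × ℕ)} {I : α → List ℕ} (hE : PolyTime E)
    (hI : PolyTime I) : PolyTime (fun a => hasE (E a) (I a)) := by
  unfold hasE
  fun_prop

theorem ptg : PtgStmt :=
  ⟨pt_edgesS, fun _ _ _ _ _ _ _ hE hn hu hw hI =>
    ⟨pt_adjB hE hu hw, pt_cnL hE hn hI, pt_relB hE hn hu hw, pt_nbR hE hn hu, pt_hasE hE hI⟩⟩

end Pool.Agent.Helper31.BO
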