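import Pool.Agent.Helper92.BO.GoalsC

/-! Packet BO-SPL of helper92: the integral is a polynomial in `z`. -/

set_option autoImplicit false

namespace Pool.Agent.Helper31.BO

open MeasureTheory Finset Pool.Agent.Helper92.BO

theorem meas_BI (G : SimpleGraph ℕ) (n : ℕ) (I : Finset (Fin n)) : MeasurableSet (BI G n I) := by
  unfold BI
  have h1 : MeasurableSet {x : Fin n → ℝ | ∀ i, 0 < x i ∧ x i ≤ 1} := by
    rw [Set.ofPred_forall]
    refine MeasurableSet.iInter fun i => ?_
    exact (measurableSet_lt measurable_const (measurable_pi_apply i)).inter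
      (measurableSet_le (measurable_pi_apply i) measurable_const)
  have h2 : MeasurableSet {x : Fin n → ℝ | ∀ i j : Fin n, G.Adj i j → x i + x j ≤ 1} := by
    rw [Set.ofPred_forall]
    refine MeasurableSet.iInter fun i => ?_
    rw [Set.ofPred_forall]
    refine MeasurableSet.iInter fun j => ?_
    by_cases h : G.Adj i j
    · simp only [h, true_imp_iff]
      exact measurableSet_le ((measurable_pi_apply i).add (measurable_pi_apply j)) measurable_const
    · simp [h]
  have h3 : MeasurableSet {x : Fin n → ℝ | ∀ i, 1 / 2 < x i ↔ i ∈ I} := by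
    rw [Set.ofPred_forall]
    refine MeasurableSet.iInter fun i => ?_
    by_cases h : i ∈ I
    · simp only [h, iff_true]
      exact measurableSet_lt measurable_const (measurable_pi_apply i)
    · simp only [h, iff_false, not_lt]
      exact measurableSet_le (measurable_pi_apply i) measurable_const
  exact h1.inter (h2.inter h3)

theorem vol_BI (G : SimpleGraph ℕ) (n : ℕ) (I : Finset (Fin n)) : volume (BI G n I) ≠ ⊤ := by
  have h : BI G n I ⊆ Set.Icc (fun _ => (0 : ℝ)) (fun _ => 1) := by
    intro x hx
    exact ⟨fun i => (hx.1 i).1.le, fun i => (hx.1 i).2⟩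
  refine ne_top_of_le_ne_top ?_ (measure_mono h)
  exact (isCompact_Icc (α := Fin n → ℝ)).measure_lt_top.ne

open Classical in
theorem int_cast (G : SimpleGraph ℕ) (z : ℂ) (L : List ℕ) (n : ℕ) (h : L.length = n) :
    (∫ x : Fin L.length → ℝ, if (∀ i, 0 < x i ∧ x i ≤ 1) ∧
      (∀ i j, G.Adj (L.get i) (L.get j) → x i + x j ≤ 1) then ∏ i, psi z (x i) else 0) =
    ∫ x : Fin n → ℝ, if (∀ i, 0 < x i ∧ x i ≤ 1) ∧
      (∀ i j, G.Adj (L.get (Fin.cast h.symm i)) (L.get (Fin.cast h.symm j)) → x i + x j ≤ 1) then
        ∏ i, psi z (x i) else 0 := by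
  subst h
  rfl

theorem spl (hI : IntStmt) : SplStmt := by
  classical
  intro G n z
  rw [hI G z (List.range n) (fun _ => 1) (fun u _ => ⟨zero_le_one, le_rfl⟩)]
  have e0 := int_cast G z (List.range n) n List.length_range
  refine Eq.trans ?_ (e0.trans ?_)
  · congr 1
  have e1 : ∀ x : Fin n → ℝ, (if (∀ i, 0 < x i ∧ x i ≤ 1) ∧
      (∀ i j, G.Adj ((List.range n).get (Fin.cast (List.length_range (n := n)).symm i))
        ((List.range n).get (Fin.cast (List.length_range (n := n)).symm j)) → x i + x j ≤ 1) then
        ∏ i, psi z (x i) else 0) =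
      ∑ I : Finset (Fin n), (BI G n I).indicator (fun _ => z ^ I.card) x := by
    intro x
    have hget : ∀ i : Fin n,
        (List.range n).get (Fin.cast (List.length_range (n := n)).symm i) = (i : ℕ) := by
      intro i
      simp
    simp only [hget]
    set J : Finset (Fin n) := univ.filter fun i => 1 / 2 < x i with hJ
    split_ifs with h
    · rw [Finset.sum_eq_single J]
      · have hm : x ∈ BI G n J := by
          refine ⟨h.1, h.2, fun i => ?_⟩
          rw [hJ, Finset.mem_filter]
          simp
        rw [Set.indicator_of_mem hm, ← Finset.prod_const, ← Finset.prod_filter_mul_prod_filter_not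
          univ (fun i => 1 / 2 < x i) (fun i => psi z (x i))]
        rw [Finset.prod_congr (s₁ := univ.filter fun i => 1 / 2 < x i)
          (g := fun _ => z) rfl (fun i hi => by
            have := (Finset.mem_filter.1 hi).2
            unfold psi
            rw [if_neg (not_le.2 this)])]
        rw [Finset.prod_congr (s₁ := univ.filter fun i => ¬ 1 / 2 < x i)
          (g := fun _ => (1 : ℂ)) rfl (fun i hi => by
            have := (Finset.mem_filter.1 hi).2
            unfold psi
            rw [if_pos (not_lt.1 this)])]
        rw [Finset.prod_const_one, mul_one]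
      · intro I _ hne
        refine Set.indicator_of_notMem (fun hx => hne ?_) _
        ext i
        rw [hJ, Finset.mem_filter]
        simp only [Finset.mem_univ, true_and]
        exact (hx.2.2 i).symm
      · intro h'
        exact absurd (Finset.mem_univ _) h'
    · refine (Finset.sum_eq_zero fun I _ => Set.indicator_of_notMem (fun hx => h ?_) _).symm
      exact ⟨hx.1, hx.2.1⟩
  simp only [e1]
  rw [integral_finsetSum]
  · refine Finset.sum_congr rfl fun I _ => ?_
    rw [integral_indicator_const _ (meas_BI G n I), Complex.real_smul, mul_comm]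
    rfl
  · intro I _
    rw [integrable_indicator_iff (meas_BI G n I)]
    exact integrableOn_const (vol_BI G n I)

end Pool.Agent.Helper31.BO
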